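import Pool.Agent.Work.MP_987215_an.Nodes

namespace Pool.Agent.Results.MP_987215_an.Q2Dichotomy

open Classical Polynomial
open Pool.Agent.Work.MP_987215_an

/-- Self-conjugate lists: every non-real number occurs as often as its conjugate, every real
number occurs an even number of times. -/
def SelfConj {n : ℕ} (z : Fin n → ℂ) : Prop :=
  (∀ w : ℂ, w.im ≠ 0 →
      (Finset.univ.filter (fun j => z j = w)).card =
        (Finset.univ.filter (fun j => z j = starRingEnd ℂ w)).card) ∧
    ∀ w : ℂ, w.im = 0 → Even (Finset.univ.filter (fun j => z j = w)).card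

/-- The set of all errors `|g^{(k)}(x) - p^{(k)}(x)|`, where `g` is entire with `|g^{(n)}| ≤ 1`
on the closed unit disc and `p` is its Hermite interpolant at the nodes `z`. -/
def errors (n k : ℕ) (z : Fin n → ℂ) (x : ℂ) : Set ℝ :=
  {e : ℝ | ∃ g : ℂ → ℂ, ∃ p : Polynomial ℂ,
        Differentiable ℂ g ∧
        (∀ w : ℂ, ‖w‖ ≤ 1 → ‖iteratedDeriv n g w‖ ≤ 1) ∧
        p.degree < (n : WithBot ℕ) ∧
        (∀ j : Fin n, ∀ i : ℕ, i < (Finset.univ.filter (fun l => z l = z j)).card →
          iteratedDeriv i (fun y => p.eval y) (z j) = iteratedDeriv i g (z j)) ∧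
        e = ‖iteratedDeriv k g x - iteratedDeriv k (fun y => p.eval y) x‖}

/-- The proposed value of the supremum. -/
noncomputable def bound (n k : ℕ) (z : Fin n → ℂ) (x : ℂ) : ℝ :=
  ‖iteratedDeriv k (fun y => (∏ j : Fin n, (X - C (z j))).eval y) x‖ / (n.factorial : ℝ)

lemma bound_zero (n k : ℕ) (z : Fin n → ℂ) :
    bound n k z 0 = ‖(k.factorial : ℂ) * (nodal (nodes z)).coeff k‖ / (n.factorial : ℝ) := by
  rw [bound, ← nodal_nodes, iteratedDeriv_eval_zero]

lemma iterate_sub_eval (p q : Polynomial ℂ) (i : ℕ) (x : ℂ) :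
    (derivative^[i] (p - q)).eval x = (derivative^[i] p).eval x - (derivative^[i] q).eval x := by
  rw [iterate_derivative_sub, eval_sub]

lemma nodal_iterate_eval {n : ℕ} (z : Fin n → ℂ) (j : Fin n) (i : ℕ)
    (hi : i < (Finset.univ.filter (fun l => z l = z j)).card) :
    (derivative^[i] (nodal (nodes z))).eval (z j) = 0 := by
  have h := order_of_factor (nodes z) (z j)
  rw [natCast_le_analyticOrderAt_iff_iteratedDeriv_eq_zero
    ((nodal (nodes z)).differentiable.analyticAt _)] at h
  have h2 := h i (by rw [count_nodes]; exact hi)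
  rw [iteratedDeriv_eval] at h2
  exact h2

/-- The error of `q` (a polynomial with bounded `n`-th derivative) when its interpolant is
`q - r * nodal`. -/
lemma mem_errors {n : ℕ} (k : ℕ) (z : Fin n → ℂ) (q r : Polynomial ℂ)
    (hq : ∀ w : ℂ, ‖w‖ ≤ 1 → ‖(derivative^[n] q).eval w‖ ≤ 1)
    (hdeg : (q - r * nodal (nodes z)).degree < (n : WithBot ℕ)) :
    ‖(k.factorial : ℂ) * (r * nodal (nodes z)).coeff k‖ ∈ errors n k z 0 := by
  refine ⟨fun x => q.eval x, q - r * nodal (nodes z), q.differentiable, ?_, hdeg, ?_, ?_⟩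
  · intro w hw
    rw [iteratedDeriv_eval]
    exact hq w hw
  · intro j i hi
    rw [iteratedDeriv_eval, iteratedDeriv_eval]
    simp only
    rw [iterate_sub_eval]
    have hz : (derivative^[i] (r * nodal (nodes z))).eval (z j) = 0 := by
      rw [iterate_derivative_mul, eval_finsetSum]
      apply Finset.sum_eq_zero
      intro l hl
      rw [eval_smul, eval_mul, nodal_iterate_eval z j l, mul_zero, smul_zero]
      have := Finset.mem_range.mp hl
      omega
    rw [hz, sub_zero]
  · rw [iteratedDeriv_eval_zero, iteratedDeriv_eval_zero, coeff_sub]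
    congr 1
    ring

lemma bound_mem {n : ℕ} (k : ℕ) (z : Fin n → ℂ) : bound n k z 0 ∈ errors n k z 0 := by
  have hn : (n.factorial : ℂ) ≠ 0 := by exact_mod_cast n.factorial_ne_zero
  have h := mem_errors k z (C ((n.factorial : ℂ)⁻¹) * X ^ n) (C ((n.factorial : ℂ)⁻¹)) (by
    intro w _
    rw [iterate_derivative_C_mul, iterate_derivative_X_pow_eq_C_mul, Nat.descFactorial_self,
      Nat.sub_self, pow_zero, mul_one, ← C_mul, inv_mul_cancel₀ hn, eval_C, norm_one]) (by
    rw [← mul_sub]
    have h1 : (X ^ n - nodal (nodes z)).degree < (n : WithBot ℕ) := by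
      have := degree_sub_lt_left (p := (X : Polynomial ℂ) ^ n) (q := nodal (nodes z))
        (by rw [degree_X_pow, nodal_degree, card_nodes]) (pow_ne_zero _ X_ne_zero)
        (by rw [(monic_X_pow n).leadingCoeff, (nodal_monic _).leadingCoeff])
      rwa [degree_X_pow] at this
    have h2 := (degree_mul_le (C ((n.factorial : ℂ)⁻¹)) (X ^ n - nodal (nodes z))).trans
      (add_le_add_left degree_C_le _)
    rw [zero_add] at h2
    exact lt_of_le_of_lt h2 h1)
  have e : bound n k z 0 =
      ‖(k.factorial : ℂ) * (C ((n.factorial : ℂ)⁻¹) * nodal (nodes z)).coeff k‖ := by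
    rw [bound_zero, coeff_C_mul, norm_mul, norm_mul, norm_mul, norm_inv, Complex.norm_natCast,
      Complex.norm_natCast, div_eq_mul_inv]
    ring
  rw [e]
  exact h

lemma selfConj_pairs {n : ℕ} (z : Fin n → ℂ) (h : SelfConj z) : ∃ L, nodes z = dbl L := by
  apply exists_pairs
  · intro w hw
    rw [count_nodes, count_nodes]
    exact h.1 w hw
  · intro w hw
    rw [count_nodes]
    exact h.2 w hw

lemma selfConj_of_dbl {n : ℕ} (z : Fin n → ℂ) (L : Multiset ℂ) (h : nodes z = dbl L) :
    SelfConj z := by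
  have hcount : ∀ w, (Finset.univ.filter (fun j => z j = w)).card =
      L.count w + L.count (starRingEnd ℂ w) := by
    intro w
    rw [← count_nodes, h, dbl, Multiset.count_add]
    congr 1
    have hinj : Function.Injective (starRingEnd ℂ) := (starRingEnd ℂ).injective
    have := Multiset.count_map_eq_count' (starRingEnd ℂ) L hinj (starRingEnd ℂ w)
    rwa [Complex.conj_conj] at this
  refine ⟨fun w _ => ?_, fun w hw => ?_⟩
  · rw [hcount, hcount, Complex.conj_conj, add_comm]
  · rw [hcount, Complex.conj_eq_iff_im.mpr hw]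
    exact ⟨_, rfl⟩

lemma exists_nodes (Z : Multiset ℂ) : ∃ z : Fin (Multiset.card Z) → ℂ, nodes z = Z := by
  induction Z using Quotient.inductionOn with
  | h l =>
    refine ⟨fun j => l.get j, ?_⟩
    rw [nodes]
    rw [Fin.univ_val_map]
    exact congrArg _ (List.ofFn_get l)

lemma quad_I : quad Complex.I = X ^ 2 + 1 := by
  rw [quad]
  simp

lemma coeff_sq_add_one (N j : ℕ) : ((X ^ 2 + 1 : Polynomial ℝ) ^ N).coeff j =
    if 2 ∣ j then (N.choose (j / 2) : ℝ) else 0 := by
  have : (X ^ 2 + 1 : Polynomial ℝ) ^ N = expand ℝ 2 ((X + 1) ^ N) := by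
    rw [map_pow, map_add, expand_X, map_one]
  rw [this, coeff_expand (by norm_num)]
  split_ifs with h
  · rw [coeff_X_add_one_pow]
  · rfl

/-- failure for odd `k` -/
lemma fails (n N k : ℕ) (hn : n = 2 * N) (hk : Odd k) (hkN : k < n) :
    ∃ z : Fin n → ℂ, (∀ j, ‖z j‖ ≤ 1) ∧ (∀ j, 0 ≤ (z j).re) ∧ SelfConj z ∧
      ¬ IsLUB (errors n k z 0) (bound n k z 0) := by
  set L : Multiset ℂ := Multiset.replicate N Complex.I with hL
  obtain ⟨z', hz'⟩ := exists_nodes (dbl L)
  have hcard : Multiset.card (dbl L) = n := by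
    rw [card_dbl, hL, Multiset.card_replicate, hn]
  obtain ⟨z, hz⟩ : ∃ z : Fin n → ℂ, nodes z = dbl L := by
    rw [← hcard]
    exact ⟨z', hz'⟩
  have hmem : ∀ j, z j = Complex.I ∨ z j = -Complex.I := by
    intro j
    have h1 : z j ∈ nodes z := by
      rw [nodes]; exact Multiset.mem_map_of_mem _ (Finset.mem_univ_val j)
    rw [hz, dbl, Multiset.mem_add, Multiset.mem_map] at h1
    rcases h1 with h | ⟨b, hb, h⟩
    · left; exact Multiset.eq_of_mem_replicate h
    · right
      rw [← h, Multiset.eq_of_mem_replicate hb, Complex.conj_I]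
  have hnodal : nodal (nodes z) = ((X ^ 2 + 1 : Polynomial ℝ) ^ N).map Complex.ofRealHom := by
    rw [hz, nodal_dbl, pairPoly, hL, Multiset.map_replicate, Multiset.prod_replicate, quad_I]
  have hcoef : ∀ j, (nodal (nodes z)).coeff j =
      (((if 2 ∣ j then (N.choose (j / 2) : ℝ) else 0) : ℝ) : ℂ) := by
    intro j
    rw [hnodal, coeff_map, coeff_sq_add_one]
    rfl
  refine ⟨z, ?_, ?_, selfConj_of_dbl z L hz, ?_⟩
  · intro j
    rcases hmem j with h | h <;> rw [h] <;> simp
  · intro j
    rcases hmem j with h | h <;> rw [h] <;> simp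
  · intro hlub
    obtain ⟨i, hi⟩ := hk
    have hfac : ((n + 1).factorial : ℂ) ≠ 0 := by exact_mod_cast (n + 1).factorial_ne_zero
    have h := mem_errors k z (C (((n + 1).factorial : ℂ)⁻¹) * X ^ (n + 1))
      (C (((n + 1).factorial : ℂ)⁻¹) * X) (by
      intro w hw
      have hd : (n + 1).descFactorial n = (n + 1).factorial := by
        have := Nat.factorial_mul_descFactorial (show n ≤ n + 1 by omega)
        rwa [Nat.add_sub_cancel_left, Nat.factorial_one, one_mul] at this
      rw [iterate_derivative_C_mul, iterate_derivative_X_pow_eq_C_mul, hd,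
        Nat.add_sub_cancel_left, pow_one, ← mul_assoc, ← C_mul, inv_mul_cancel₀ hfac, C_1, one_mul,
        eval_X]
      exact hw) (by
      rw [mul_assoc, ← mul_sub]
      have h1 : (X ^ (n + 1) - X * nodal (nodes z)).degree < (n : WithBot ℕ) := by
        rw [degree_lt_iff_coeff_zero]
        intro m hm
        rcases m with _ | j
        · omega
        · rw [coeff_sub, coeff_X_mul, hcoef, coeff_X_pow]
          rcases Nat.lt_trichotomy j n with h | h | h
          · have hodd : ¬ 2 ∣ j := by omega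
            rw [if_neg (by omega), if_neg hodd]; simp
          · rw [if_pos (by omega), if_pos (by omega), h, hn]
            simp
          · rw [if_neg (by omega)]
            split_ifs with h2
            · rw [Nat.choose_eq_zero_of_lt (by omega)]; simp
            · simp
      have h2 := (degree_mul_le (C (((n + 1).factorial : ℂ)⁻¹)) (X ^ (n + 1) - X * nodal (nodes z))).trans
        (add_le_add_left degree_C_le _)
      rw [zero_add] at h2
      exact lt_of_le_of_lt h2 h1)
    have hb : bound n k z 0 = 0 := by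
      rw [bound_zero, hcoef, if_neg (by omega)]
      simp
    have hle := hlub.1 h
    rw [hb, mul_assoc, coeff_C_mul, hi, coeff_X_mul, hcoef, if_pos (by omega),
      show 2 * i / 2 = i by omega] at hle
    have hpos : 0 < N.choose i := Nat.choose_pos (by omega)
    have hne : ‖(((2 * i + 1).factorial : ℕ) : ℂ) * ((((n + 1).factorial : ℂ)⁻¹) *
        (((N.choose i : ℕ) : ℝ) : ℂ))‖ ≠ 0 := by
      rw [norm_ne_zero_iff]
      refine mul_ne_zero (by exact_mod_cast (2 * i + 1).factorial_ne_zero)
        (mul_ne_zero (inv_ne_zero hfac) ?_)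
      exact_mod_cast hpos.ne'
    exact hne (le_antisymm hle (norm_nonneg _))

/-- the upper bound for even `k` -/
lemma upper {n k : ℕ} (hkn : k < n) (hk : Even k) (z : Fin n → ℂ) (h1 : ∀ j, ‖z j‖ ≤ 1)
    (h2 : ∀ j, 0 ≤ (z j).re) (hz : SelfConj z) : bound n k z 0 ∈ upperBounds (errors n k z 0) := by
  rintro e ⟨g, p, hg, hM, hdeg, hp, rfl⟩
  obtain ⟨h, hI⟩ := isInt_of_conditions z hg hdeg hp
  obtain ⟨L, hL⟩ := selfConj_pairs z hz
  have hcard : n = 2 * Multiset.card L := by
    rw [← card_dbl, ← hL, card_nodes]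
  have hmem : ∀ a ∈ L, ‖a‖ ≤ 1 ∧ 0 ≤ a.re := by
    intro a ha
    have : a ∈ nodes z := by rw [hL, dbl]; exact Multiset.mem_add.mpr (Or.inl ha)
    rw [nodes, Multiset.mem_map] at this
    obtain ⟨j, -, rfl⟩ := this
    exact ⟨h1 j, h2 j⟩
  rw [hL] at hI
  have key := good_all hg (M := 1) zero_le_one (N := Multiset.card L) hk (by omega)
    (by rw [← hcard]; exact hM) _ L rfl hmem rfl p h hI
  rw [iteratedDeriv_eval_zero, bound_zero, hL, nodal_dbl, coeff_map]
  refine key.trans (le_of_eq ?_)
  have hc0 : 0 ≤ (pairPoly L).coeff k := by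
    obtain ⟨j, hj⟩ := hk
    have := (sign_pattern L (fun a ha => (hmem a ha).2)).1 j
    rwa [show 2 * j = k by omega] at this
  rw [← hcard, norm_mul, Complex.norm_natCast, Complex.ofRealHom_eq_coe, Complex.norm_real,
    Real.norm_of_nonneg hc0, mul_one]

/-- Q2 holds, for given `n ≥ 1` and `0 ≤ k ≤ n - 1`, if and only if `n` is odd (there are then no
self-conjugate lists of length `n`) or `k` is even. -/
theorem result (n k : ℕ) (hn : 1 ≤ n) (hk : k ≤ n - 1) :
    (∀ z : Fin n → ℂ, (∀ j, ‖z j‖ ≤ 1) → (∀ j, 0 ≤ (z j).re) → SelfConj z →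
      IsLUB (errors n k z 0) (bound n k z 0)) ↔ (Odd n ∨ Even k) := by
  have hkn : k < n := by omega
  constructor
  · intro H
    by_contra hcon
    push Not at hcon
    obtain ⟨hn1, hk1⟩ := hcon
    rw [Nat.not_odd_iff_even] at hn1
    rw [Nat.not_even_iff_odd] at hk1
    obtain ⟨N, hN⟩ := hn1
    have hN2 : n = 2 * N := by omega
    obtain ⟨z, a, b, c, d⟩ := fails n N k hN2 hk1 hkn
    exact d (H z a b c)
  · rintro (ho | he) z h1 h2 hz
    · exfalso
      obtain ⟨L, hL⟩ := selfConj_pairs z hz
      have hcard : n = 2 * Multiset.card L := by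
        rw [← card_dbl, ← hL, card_nodes]
      obtain ⟨m, hm⟩ := ho
      omega
    · exact IsGreatest.isLUB ⟨bound_mem k z, upper hkn he z h1 h2 hz⟩

end Pool.Agent.Results.MP_987215_an.Q2Dichotomy
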